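import Pool.Agent.Lib.MP_144d21_co.X2.IfaceC
import Pool.Agent.Lib.MP_144d21_co.X2.H98.Fams

/-!
# X2: FAMC, the families of the rest of a chain
-/

set_option autoImplicit false
set_option linter.unusedSectionVars false

namespace Pool.Agent.Xu.X2.H47

open Finset Pool.Agent.Xu Pool.Agent.Xu.X2 Pool.Agent.Xu.X2.H41 Pool.Agent.Xu.X2.H98

variable {V : Type} [Fintype V] [DecidableEq V]

/-- a family from some clusters of a given family and some new ones -/
theorem fam_build {p : V → Fin 3 → ℝ} {G : SimpleGraph V} {S : Finset V} {n e : ℕ}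
    (th : Fin n → Finset V) (D : Finset (Fin n)) (ex : Fin e → Finset V)
    (hD : ∀ k ∈ D, Clus p G S (th k)) (hex : ∀ j, Clus p G S (ex j))
    (hcov : ∀ T P Q, Cut3 G S T P Q → (∃ k ∈ D, ∃ x ∈ P, x ∈ th k) ∨ ∃ j, ∃ x ∈ P, x ∈ ex j) :
    Fam p G S (D.card + e) := by
  refine ⟨Fin.append (fun i => th (D.orderEmbOfFin rfl i)) ex, ?_, ?_⟩
  · intro k
    refine Fin.addCases (fun i => ?_) (fun j => ?_) k
    · rw [Fin.append_left]
      exact hD _ (Finset.orderEmbOfFin_mem D rfl i)
    · rw [Fin.append_right]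
      exact hex j
  · intro T P Q hc
    rcases hcov T P Q hc with ⟨k, hk, x, hx, hxk⟩ | ⟨j, x, hx, hxj⟩
    · have h1 : k ∈ Set.range (D.orderEmbOfFin rfl) := by
        rw [Finset.range_orderEmbOfFin]
        exact mem_coe.2 hk
      obtain ⟨i, rfl⟩ := h1
      exact ⟨Fin.castAdd e i, x, hx, by rw [Fin.append_left]; exact hxk⟩
    · exact ⟨Fin.natAdd _ j, x, hx, by rw [Fin.append_right]; exact hxj⟩

/-- numbers with pairwise distance at most one -/
theorem card_close {F : Finset ℕ} (h : ∀ i ∈ F, ∀ j ∈ F, i < j → j = i + 1) : F.card ≤ 2 := by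
  rcases F.eq_empty_or_nonempty with rfl | hne
  · simp
  · have h1 : F ⊆ {F.min' hne, F.min' hne + 1} := by
      intro j hj
      rw [mem_insert, mem_singleton]
      rcases (F.min'_le j hj).eq_or_lt with h2 | h2
      · exact Or.inl h2.symm
      · exact Or.inr (h _ (F.min'_mem hne) j hj h2)
    exact (card_le_card h1).trans card_le_two

theorem inner_sub {G : SimpleGraph V} {S : Finset V} {h : V} {m : ℕ} {b : ℕ → V}
    (hc : Chain G S h m b) : inner b m ⊆ S := by
  intro x hx
  obtain ⟨i, -, hi, rfl⟩ := mem_inner.1 hx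
  exact hc.bS i hi.le

theorem cT_mem {h : V} {m : ℕ} {b : ℕ → V} {x : V} :
    x ∈ tS (cT h b m) ↔ x = h ∨ x = b 0 ∨ x = b m := by
  rw [mem_tS]
  constructor
  · rintro ⟨j, rfl⟩
    fin_cases j
    · exact Or.inl rfl
    · exact Or.inr (Or.inl rfl)
    · exact Or.inr (Or.inr rfl)
  · rintro (rfl | rfl | rfl)
    · exact ⟨0, rfl⟩
    · exact ⟨1, rfl⟩
    · exact ⟨2, rfl⟩

/-- the neighbours of an inner vertex -/
theorem nb_inner {G : SimpleGraph V} {S : Finset V} {h : V} {m : ℕ} {b : ℕ → V}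
    (hc : Chain G S h m b) {i : ℕ} (h0 : 0 < i) (him : i < m) {x : V} (hx : x ∈ nb G S (b i)) :
    x ∈ inner b m ∨ x ∈ tS (cT h b m) := by
  rw [hc.nbb i h0 him, mem_insert, mem_insert, mem_singleton] at hx
  rw [mem_inner, cT_mem]
  rcases hx with rfl | rfl | rfl
  · rcases Nat.eq_zero_or_pos (i - 1) with h1 | h1
    · rw [h1]; tauto
    · exact Or.inl ⟨i - 1, h1, by omega, rfl⟩
  · rcases Nat.lt_or_ge (i + 1) m with h1 | h1
    · exact Or.inl ⟨i + 1, by omega, h1, rfl⟩
    · rw [show i + 1 = m by omega]; tauto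
  · tauto

/-- the separation with side `{b i}` -/
theorem side_single {G : SimpleGraph V} {S : Finset V} {h : V} {m : ℕ} {b : ℕ → V}
    (hc : Chain G S h m b) (hm : 3 ≤ m) {i : ℕ} (h0 : 0 < i) (him : i < m) :
    ∃ Q, Cut3 G S (nb G S (b i)) {b i} Q := by
  have hiS : b i ∈ S := hc.bS i him.le
  have hnbS : nb G S (b i) ⊆ S := fun z hz => (mem_nb.1 hz).1
  have hvT : b i ∉ nb G S (b i) := by
    rw [mem_nb]
    exact fun h => h.2.ne rfl
  have hcard : (nb G S (b i)).card = 3 := by
    rw [hc.nbb i h0 him]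
    refine card_eq_three.2 ⟨_, _, _, ?_, ?_, ?_, rfl⟩
    · intro he
      have := hc.inj _ (by omega) _ (by omega) he
      omega
    · exact hc.bh _ (by omega)
    · exact hc.bh _ (by omega)
  refine ⟨(S.erase (b i)) \ nb G S (b i), hcard, ?_, ?_, ?_, ?_, singleton_nonempty _, ?_, ?_⟩
  · ext z
    simp only [mem_union, mem_singleton, mem_sdiff, mem_erase]
    constructor
    · rintro ((h | rfl) | h)
      · exact hnbS h
      · exact hiS
      · exact h.1.2
    · intro h
      by_cases h1 : z ∈ nb G S (b i)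
      · exact Or.inl (Or.inl h1)
      · by_cases h2 : z = b i
        · exact Or.inl (Or.inr h2)
        · exact Or.inr ⟨⟨h2, h⟩, h1⟩
  · rw [disjoint_singleton_right]; exact hvT
  · exact disjoint_sdiff
  · rw [disjoint_singleton_left, mem_sdiff]
    exact fun h => notMem_erase (b i) S h.1
  · -- another vertex of the chain
    have key : ∀ j, j ≤ m → j ≠ i → j ≠ i - 1 → j ≠ i + 1 →
        b j ∈ (S.erase (b i)) \ nb G S (b i) := by
      intro j hj h1 h2 h3
      rw [mem_sdiff, mem_erase, hc.nbb i h0 him, mem_insert, mem_insert, mem_singleton]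
      refine ⟨⟨fun he => h1 (hc.inj _ hj _ him.le he), hc.bS j hj⟩, ?_⟩
      rintro (he | he | he)
      · exact h2 (hc.inj _ hj _ (by omega) he)
      · exact h3 (hc.inj _ hj _ (by omega) he)
      · exact hc.bh j hj he
    by_cases h1 : i = 1
    · exact ⟨b 3, key 3 hm (by omega) (by omega) (by omega)⟩
    · exact ⟨b 0, key 0 (by omega) (by omega) (by omega) (by omega)⟩
  · intro a ha x hx hab
    rw [mem_singleton] at ha
    subst ha
    rw [mem_sdiff, mem_erase] at hx
    exact hx.2 (mem_nb.2 ⟨hx.1.2, hab⟩)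

theorem famc (hR : RkchS) (hCl : ClchS) : FamcS := by
  intro V _ _ p hp G S h m b n hc hm hfam0
  obtain ⟨th, hth, hfam⟩ := hfam0
  have hclch := hCl V p hp G S h m b hc hm
  have hrk := (hR V p hp.1 G S h m b hc).2
  classical
  set U : Finset (Fin n) := univ.filter fun k => ∃ i, 0 < i ∧ i < m ∧ b i ∈ th k with hU
  have hDU : ∀ k, k ∈ Uᶜ → ∀ x ∈ th k, x ∉ inner b m := by
    intro k hk x hx hxi
    obtain ⟨i, h0, him, rfl⟩ := mem_inner.1 hxi
    rw [mem_compl] at hk
    exact hk (mem_filter.2 ⟨mem_univ _, i, h0, him, hx⟩)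
  -- clusters of the rest
  have hD : ∀ k ∈ Uᶜ, Clus p G (S \ inner b m) (th k) := by
    intro k hk
    refine ⟨fun x hx => mem_sdiff.2 ⟨(hth k).1 hx, hDU k hk x hx⟩, fun u hu v hv => ?_⟩
    refine hrk _ ((hth k).2 u hu v hv) fun w hw => row_off ?_ ?_
    · rintro rfl; exact hDU k hk _ hu hw
    · rintro rfl; exact hDU k hk _ hv hw
  -- the lift of separations
  have hlift : ∀ (F : SimpleGraph V) (T' P' Q' : Finset V),
      Cut3 (G ⊔ F) (S \ inner b m) T' P' Q' → (∀ a ∈ P', a ∉ tS (cT h b m)) →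
      ∃ k ∈ Uᶜ, ∃ x ∈ P', x ∈ th k := by
    intro F T' P' Q' hc' hA
    have hP : P' ⊆ S \ inner b m := by
      rw [← hc'.un]; exact subset_union_right.trans subset_union_left
    have hT : T' ⊆ S \ inner b m := by
      rw [← hc'.un]; exact subset_union_left.trans subset_union_left
    have hcut : Cut3 G S T' P' (Q' ∪ inner b m) := by
      refine ⟨hc'.card, ?_, hc'.tp, ?_, ?_, hc'.pn, ?_, ?_⟩
      · rw [← union_assoc, hc'.un, sdiff_union_of_subset (inner_sub hc)]
      · rw [disjoint_union_right]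
        exact ⟨hc'.tq, disjoint_left.2 fun x hx hxi => (mem_sdiff.1 (hT hx)).2 hxi⟩
      · rw [disjoint_union_right]
        exact ⟨hc'.pq, disjoint_left.2 fun x hx hxi => (mem_sdiff.1 (hP hx)).2 hxi⟩
      · exact hc'.qn.mono subset_union_left
      · intro a ha x hx hax
        rcases mem_union.1 hx with hx | hx
        · exact hc'.ne a ha x hx (Or.inl hax)
        · obtain ⟨i, h0, him, rfl⟩ := mem_inner.1 hx
          have h1 : a ∈ nb G S (b i) := mem_nb.2 ⟨(mem_sdiff.1 (hP ha)).1, hax.symm⟩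
          rcases nb_inner hc h0 him h1 with h2 | h2
          · exact (mem_sdiff.1 (hP ha)).2 h2
          · exact hA a ha h2
    obtain ⟨k, x, hx, hxk⟩ := hfam _ _ _ hcut
    refine ⟨k, ?_, x, hx, hxk⟩
    rw [mem_compl]
    intro hk
    obtain ⟨-, i, h0, him, hik⟩ := mem_filter.1 hk
    have hxb : x ≠ b i := by
      rintro rfl
      exact (mem_sdiff.1 (hP hx)).2 (mem_inner.2 ⟨i, h0, him, rfl⟩)
    have h1 := hclch i h0 him x ((hth k).1 hxk) hxb ((hth k).2 _ hik _ hxk)
    rcases nb_inner hc h0 him h1 with h2 | h2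
    · exact (mem_sdiff.1 (hP hx)).2 h2
    · exact hA x hx h2
  refine ⟨U.card, Uᶜ.card, ?_, ?_, ?_, ?_⟩
  · rw [card_add_card_compl, Fintype.card_fin]
  · -- the inner vertices are covered
    have hk : ∀ i, ∃ k, (0 < i ∧ i < m) → b i ∈ th k := by
      intro i
      by_cases hi : 0 < i ∧ i < m
      · obtain ⟨Q, hQ⟩ := side_single hc hm hi.1 hi.2
        obtain ⟨k, x, hx, hxk⟩ := hfam _ _ _ hQ
        rw [mem_singleton] at hx
        subst hx
        exact ⟨k, fun _ => hxk⟩
      · obtain ⟨Q, hQ⟩ := side_single hc hm (i := 1) (by omega) (by omega)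
        obtain ⟨k, -⟩ := hfam _ _ _ hQ
        exact ⟨k, fun h => (hi h).elim⟩
    choose f hf using hk
    have hmaps : ∀ i ∈ Ioo 0 m, f i ∈ U := by
      intro i hi
      rw [mem_Ioo] at hi
      exact mem_filter.2 ⟨mem_univ _, i, hi.1, hi.2, hf i hi⟩
    have hfib : ∀ k ∈ U, ((Ioo 0 m).filter fun i => f i = k).card ≤ 2 := by
      intro k _
      refine card_close ?_
      intro i hi j hj hij
      rw [mem_filter, mem_Ioo] at hi hj
      have h1 : b i ∈ th k := hi.2 ▸ hf i hi.1
      have h2 : b j ∈ th k := hj.2 ▸ hf j hj.1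
      have hne : b j ≠ b i := by
        intro he
        have := hc.inj _ hj.1.2.le _ hi.1.2.le he
        omega
      have h3 := hclch i hi.1.1 hi.1.2 (b j) ((hth k).1 h2) hne ((hth k).2 _ h1 _ h2)
      rw [hc.nbb i hi.1.1 hi.1.2, mem_insert, mem_insert, mem_singleton] at h3
      rcases h3 with he | he | he
      · have := hc.inj _ hj.1.2.le _ (by omega) he
        omega
      · exact hc.inj _ hj.1.2.le _ (by omega) he
      · exact (hc.bh j hj.1.2.le he).elim
    have := card_le_mul_card_image_of_maps_to hmaps 2 hfib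
    rwa [Nat.card_Ioo, Nat.sub_zero] at this
  · intro I hI
    refine fam_build th Uᶜ (fun _ : Fin 1 => tS (cT h b m))
      (fun k hk => clus_mono (subset_refl _) le_sup_left (hD k hk)) (fun _ => hI) ?_
    intro T' P' Q' hc'
    by_cases hA : ∀ a ∈ P', a ∉ tS (cT h b m)
    · exact Or.inl (hlift _ _ _ _ hc' hA)
    · push Not at hA
      obtain ⟨a, haP, haT⟩ := hA
      exact Or.inr ⟨0, a, haP, haT⟩
  · have hnot : ∀ j, (j = 0 ∨ j = m) → b j ∈ S \ inner b m := by
      intro j hj
      have hjm : j ≤ m := by omega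
      refine mem_sdiff.2 ⟨hc.bS j hjm, fun hji => ?_⟩
      obtain ⟨i, h0, him, he⟩ := mem_inner.1 hji
      have := hc.inj _ him.le _ hjm he
      omega
    have hhS : h ∈ S \ inner b m := by
      refine mem_sdiff.2 ⟨hc.hS, fun hi => ?_⟩
      obtain ⟨i, h0, him, he⟩ := mem_inner.1 hi
      exact hc.bh i him.le he
    have a1 : (G ⊔ tE (cT h b m) {1, 2}).Adj h (b 0) := by
      refine Or.inr ⟨(hc.bh 0 (by omega)).symm, 2, by simp, Or.inl ⟨rfl, rfl⟩⟩
    have a2 : (G ⊔ tE (cT h b m) {1, 2}).Adj h (b m) := by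
      refine Or.inr ⟨(hc.bh m le_rfl).symm, 1, by simp, Or.inr ⟨rfl, rfl⟩⟩
    refine fam_build th Uᶜ (![{h, b 0}, {h, b m}] : Fin 2 → Finset V)
      (fun k hk => clus_mono (subset_refl _) le_sup_left (hD k hk)) ?_ ?_
    · intro j
      fin_cases j
      · exact clus_pair hhS (hnot 0 (Or.inl rfl)) a1
      · exact clus_pair hhS (hnot m (Or.inr rfl)) a2
    · intro T' P' Q' hc'
      by_cases hA : ∀ a ∈ P', a ∉ tS (cT h b m)
      · exact Or.inl (hlift _ _ _ _ hc' hA)
      · push Not at hA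
        obtain ⟨a, haP, haT⟩ := hA
        rw [cT_mem] at haT
        rcases haT with rfl | rfl | rfl
        · exact Or.inr ⟨0, _, haP, by simp⟩
        · exact Or.inr ⟨0, _, haP, by simp⟩
        · exact Or.inr ⟨1, _, haP, by simp⟩

end Pool.Agent.Xu.X2.H47
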